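import Pool.Agent.H97.PK.Targets2

set_option autoImplicit false

/-!
# MP_9d526a_co, module SLW: slices of the weighted functional
-/

open MeasureTheory Set Metric Real
open scoped ENNReal

namespace Pool.Agent.H81.PK

open Pool.Agent.H97.PK

/-- the set of the points which are covered at least `k + 1` times -/
def Lev {d n : ℕ} (p : Fin n → E d) (k : ℕ) (r : ℝ) : Set (E d) :=
  {x : E d | k + 1 ≤ (Finset.univ.filter (fun i => dist x (p i) ≤ r)).card}

theorem meas_Lev {d n : ℕ} (p : Fin n → E d) (k : ℕ) (r : ℝ) : MeasurableSet (Lev p k r) := by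
  have h1 : Measurable fun x : E d =>
      (Finset.univ.filter (fun i => dist x (p i) ≤ r)).card := by
    have e : (fun x : E d => (Finset.univ.filter (fun i => dist x (p i) ≤ r)).card) =
        fun x : E d => ∑ i : Fin n, if dist x (p i) ≤ r then 1 else 0 := by
      funext x
      rw [Finset.card_filter]
    rw [e]
    refine Finset.measurable_sum _ fun i _ => ?_
    exact Measurable.ite (measurableSet_closedBall (x := p i) (ε := r)) measurable_const
      measurable_const
  exact measurableSet_le measurable_const h1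

theorem fin_Lev {d n : ℕ} (p : Fin n → E d) (k : ℕ) (r : ℝ) : volume (Lev p k r) < ∞ := by
  have h1 : Bornology.IsBounded (⋃ i, closedBall (p i) r) :=
    Bornology.isBounded_iUnion.2 fun i => isBounded_closedBall
  refine (measure_mono ?_).trans_lt h1.measure_lt_top
  intro x hx
  have h2 : 0 < (Finset.univ.filter (fun i => dist x (p i) ≤ r)).card :=
    lt_of_lt_of_le (Nat.succ_pos k) hx
  obtain ⟨i, hi⟩ := Finset.card_pos.1 h2
  exact mem_iUnion.2 ⟨i, (Finset.mem_filter.1 hi).2⟩

theorem mono_Lev {d n : ℕ} (p : Fin n → E d) (k : ℕ) : Monotone fun r => Lev p k r := by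
  intro r s hrs x hx
  refine le_trans (b := (Finset.univ.filter (fun i => dist x (p i) ≤ r)).card) hx
    (Finset.card_le_card ?_)
  intro i hi
  rw [Finset.mem_filter] at hi ⊢
  exact ⟨hi.1, hi.2.trans hrs⟩

theorem WW_eq {d n : ℕ} (τ : Fin n → ℝ) (p : Fin n → E d) (r : ℝ) :
    WW τ p r = ∑ k : Fin n, τ k * (volume (Lev p k.val r)).toReal := rfl

theorem mem_slice (hFUB : T_FUB) {d m n : ℕ} (p : Fin n → E d) (k : ℕ) {R : ℝ} (hR : 0 ≤ R)
    (y : E d) (z : E m) : pr y z ∈ Lev (fun i => emb m (p i)) k R ↔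
      z ∈ closedBall (0 : E m) R ∧ y ∈ Lev p k (√(R ^ 2 - ‖z‖ ^ 2)) := by
  have key : ∀ c : E d, dist (pr y z) (emb m c) ≤ R ↔ ‖y - c‖ ^ 2 + ‖z‖ ^ 2 ≤ R ^ 2 := by
    intro c
    rw [← (hFUB d m).2 y c z, dist_eq_norm, sq_le_sq₀ (norm_nonneg _) hR]
  by_cases hz : ‖z‖ ≤ R
  · have h0 : 0 ≤ R ^ 2 - ‖z‖ ^ 2 := by
      have := (sq_le_sq₀ (norm_nonneg z) hR).2 hz
      linarith
    have h1 : ∀ c : E d, dist (pr y z) (emb m c) ≤ R ↔ dist y c ≤ √(R ^ 2 - ‖z‖ ^ 2) := by
      intro c
      rw [key c, dist_eq_norm]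
      constructor
      · intro h
        exact Real.le_sqrt_of_sq_le (by linarith)
      · intro h
        have h' := (Real.le_sqrt (norm_nonneg _) h0).1 h
        linarith
    have h2 : z ∈ closedBall (0 : E m) R := mem_closedBall_zero_iff.2 hz
    have h3 : (Finset.univ.filter (fun i => dist (pr y z) (emb m (p i)) ≤ R)) =
        Finset.univ.filter (fun i => dist y (p i) ≤ √(R ^ 2 - ‖z‖ ^ 2)) :=
      Finset.filter_congr fun i _ => h1 (p i)
    unfold Lev
    rw [mem_ofPred_eq, mem_ofPred_eq, h3]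
    exact ⟨fun h => ⟨h2, h⟩, fun h => h.2⟩
  · constructor
    · intro h
      exfalso
      have h2 : 0 < (Finset.univ.filter (fun i => dist (pr y z) (emb m (p i)) ≤ R)).card :=
        lt_of_lt_of_le (Nat.succ_pos k) h
      obtain ⟨i, hi⟩ := Finset.card_pos.1 h2
      have h3 := (key (p i)).1 (Finset.mem_filter.1 hi).2
      have h4 : R ^ 2 < ‖z‖ ^ 2 := (sq_lt_sq₀ hR (norm_nonneg z)).2 (not_le.1 hz)
      have h5 : 0 ≤ ‖y - p i‖ ^ 2 := sq_nonneg _
      linarith
    · intro h
      exact absurd (mem_closedBall_zero_iff.1 h.1) hz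

theorem meas_slice {d m n : ℕ} (p : Fin n → E d) (k : ℕ) (R : ℝ) :
    Measurable fun z : E m => volume (Lev p k (√(R ^ 2 - ‖z‖ ^ 2))) := by
  have h1 : Monotone fun r => volume (Lev p k r) := fun r s h => measure_mono (mono_Lev p k h)
  exact h1.measurable.comp (by fun_prop)

theorem slice (hFUB : T_FUB) {d m n : ℕ} (p : Fin n → E d) (k : ℕ) {R : ℝ} (hR : 0 ≤ R) :
    volume (Lev (fun i => emb m (p i)) k R) =
      ∫⁻ z in closedBall (0 : E m) R, volume (Lev p k (√(R ^ 2 - ‖z‖ ^ 2))) := by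
  have hA := meas_Lev (fun i => emb m (p i)) k R
  rw [← lintegral_indicator_one hA, (hFUB d m).1 _ (measurable_one.indicator hA),
    ← lintegral_indicator measurableSet_closedBall]
  refine lintegral_congr fun z => ?_
  by_cases hz : z ∈ closedBall (0 : E m) R
  · rw [indicator_of_mem hz, ← lintegral_indicator_one (meas_Lev p k _)]
    refine lintegral_congr fun y => ?_
    by_cases hy : y ∈ Lev p k (√(R ^ 2 - ‖z‖ ^ 2))
    · rw [indicator_of_mem hy, indicator_of_mem ((mem_slice hFUB p k hR y z).2 ⟨hz, hy⟩)]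
      rfl
    · rw [indicator_of_notMem hy,
        indicator_of_notMem fun h => hy ((mem_slice hFUB p k hR y z).1 h).2]
  · rw [indicator_of_notMem hz]
    refine (lintegral_congr fun y => ?_).trans lintegral_zero
    exact indicator_of_notMem (fun h => hz ((mem_slice hFUB p k hR y z).1 h).1) _

theorem int_slice {d m n : ℕ} (p : Fin n → E d) (k : ℕ) {R : ℝ} (hR : 0 ≤ R) :
    IntegrableOn (fun z : E m => (volume (Lev p k (√(R ^ 2 - ‖z‖ ^ 2)))).toReal)
      (closedBall (0 : E m) R) := by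
  refine Measure.integrableOn_of_bounded (M := (volume (Lev p k R)).toReal)
    isBounded_closedBall.measure_lt_top.ne (meas_slice p k R).ennreal_toReal.aestronglyMeasurable
    (ae_of_all _ fun z => ?_)
  rw [Real.norm_of_nonneg ENNReal.toReal_nonneg]
  refine ENNReal.toReal_mono (fin_Lev p k R).ne (measure_mono (mono_Lev p k ?_))
  rw [Real.sqrt_le_left hR]
  have := sq_nonneg ‖z‖
  linarith

theorem pf_slw (hFUB : T_FUB) : T_SLW := by
  intro d m n τ p R _ hR
  have hI : ∀ k : Fin n, IntegrableOn (fun z : E m =>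
      τ k * (volume (Lev p k.val (√(R ^ 2 - ‖z‖ ^ 2)))).toReal) (closedBall (0 : E m) R) :=
    fun k => (int_slice p k.val hR).const_mul (τ k)
  have e1 : (fun z : E m => WW τ p (√(R ^ 2 - ‖z‖ ^ 2))) = fun z : E m => ∑ k : Fin n,
      τ k * (volume (Lev p k.val (√(R ^ 2 - ‖z‖ ^ 2)))).toReal := by
    funext z
    exact WW_eq τ p _
  rw [e1]
  refine ⟨integrable_finsetSum _ fun k _ => hI k, ?_⟩
  rw [integral_finsetSum _ fun k _ => hI k, WW_eq]
  refine Finset.sum_congr rfl fun k _ => ?_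
  rw [integral_const_mul, integral_toReal (meas_slice p k.val R).aemeasurable
    (ae_of_all _ fun z => fin_Lev p k.val _), slice hFUB p k.val hR]

end Pool.Agent.H81.PK
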