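import Pool.Agent.H3.PK.Targets

/-! RW of the board pk_modules: Ryll-Wojtaszczyk polynomials with respect to a weight. -/

set_option autoImplicit false

open MeasureTheory Metric Set
open scoped ComplexConjugate

namespace Pool.Agent.H81.PK

open Pool.Agent.H3.PK

private theorem rw_norm {n : ℕ} {B : ℝ} (hB : 0 < B) (Q : MvPolynomial (Fin n) ℂ) (z : E n) :
    ‖ev (MvPolynomial.C (((1 / B : ℝ)) : ℂ) * Q) z‖ = 1 / B * ‖ev Q z‖ := by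
  rw [ev_mul, ev_C, norm_mul, Complex.norm_real, Real.norm_of_nonneg (by positivity)]

private theorem rw_int {n : ℕ} {B : ℝ} (hB : 0 < B) (Q : MvPolynomial (Fin n) ℂ)
    (σ : Measure (S n)) (g : S n → ℝ) :
    ∫ z, g z * ‖ev (MvPolynomial.C (((1 / B : ℝ)) : ℂ) * Q) z‖ ^ 2 ∂σ =
        1 / B ^ 2 * ∫ z, g z * ‖ev Q z‖ ^ 2 ∂σ := by
  have e : (fun z : S n => g z * ‖ev (MvPolynomial.C (((1 / B : ℝ)) : ℂ) * Q) z‖ ^ 2) =
      fun z : S n => 1 / B ^ 2 * (g z * ‖ev Q z‖ ^ 2) := by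
    funext z
    rw [rw_norm hB]
    ring
  rw [e]
  exact integral_const_mul (1 / B ^ 2) fun z : S n => g z * ‖ev Q z‖ ^ 2

private theorem rw_low {n : ℕ} {ι : Type} (s : Finset ι) (v : ι → MvPolynomial (Fin n) ℂ) {c₀ : ℝ}
    (hc₀ : 0 < c₀) (hv : ∀ z : S n, ∃ x ∈ s, c₀ ≤ ‖ev (v x) z‖) (σ : Measure (S n))
    [IsFiniteMeasure σ] (g : C(S n, ℝ)) (hg : ∀ z, 0 ≤ g z) :
    c₀ ^ 2 * ∫ z, g z ∂σ ≤ ∑ x ∈ s, ∫ z, g z * ‖ev (v x) z‖ ^ 2 ∂σ := by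
  have hcont : ∀ x ∈ s, Integrable (fun z : S n => g z * ‖ev (v x) z‖ ^ 2) σ :=
    fun x _ => integrable_cont σ (g.continuous.mul ((continuous_evS (v x)).norm.pow 2))
  have e1 : ∑ x ∈ s, ∫ z, g z * ‖ev (v x) z‖ ^ 2 ∂σ =
      ∫ z, ∑ x ∈ s, g z * ‖ev (v x) z‖ ^ 2 ∂σ := (integral_finsetSum s hcont).symm
  have e2 : c₀ ^ 2 * ∫ z, g z ∂σ = ∫ z, c₀ ^ 2 * g z ∂σ :=
    (integral_const_mul (c₀ ^ 2) fun z : S n => g z).symm
  rw [e1, e2]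
  refine integral_mono (integrable_cont σ (continuous_const.mul g.continuous))
    (integrable_finsetSum s hcont) fun z => ?_
  show c₀ ^ 2 * g z ≤ ∑ x ∈ s, g z * ‖ev (v x) z‖ ^ 2
  obtain ⟨x, hx, hcx⟩ := hv z
  have h5 : g z * ‖ev (v x) z‖ ^ 2 ≤ ∑ x ∈ s, g z * ‖ev (v x) z‖ ^ 2 :=
    Finset.single_le_sum (f := fun x => g z * ‖ev (v x) z‖ ^ 2)
      (fun y _ => mul_nonneg (hg z) (sq_nonneg _)) hx
  refine le_trans ?_ h5
  rw [mul_comm]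
  exact mul_le_mul_of_nonneg_left (pow_le_pow_left₀ hc₀.le hcx 2) (hg z)

theorem rw_poly (h1 : T_WUS) (h2 : T_WL) (h3 : T_BB) (h4 : T_SGN) : T_RW := by
  intro n hn
  obtain ⟨B, hB, hwus⟩ := h1 n
  obtain ⟨c₀, hc₀, hwl⟩ := h2 n hn
  refine ⟨min 1 (c₀ ^ 2 / B ^ 2), lt_min one_pos (by positivity), min_le_left _ _, ?_⟩
  intro σ hσ g hg N hN
  obtain ⟨e, he, hint⟩ := h4 n σ hσ g hg (Fin n × (Fin n → ℕ)) (LL n N)
    (fun x => bb N (al N x))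
  have hen : ∀ x, ‖e x‖ = 1 := by
    intro x
    rcases he x with h | h
    · rw [h, norm_one]
    · rw [h, norm_neg, norm_one]
  have hQh : (∑ x ∈ LL n N, MvPolynomial.C (e x) * bb N (al N x)).IsHomogeneous N := by
    refine MvPolynomial.IsHomogeneous.sum _ _ _ fun x hx => ?_
    exact (h3 n N (al N x) (sum_al hx)).1.C_mul _
  have hQn : ∀ z : S n, ‖ev (∑ x ∈ LL n N, MvPolynomial.C (e x) * bb N (al N x)) z‖ ≤ B := by
    intro z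
    rw [ev_sum]
    refine (norm_sum_le _ _).trans ((Finset.sum_le_sum fun x hx => ?_).trans (hwus N z))
    rw [ev_mul, ev_C, norm_mul, hen, one_mul, (h3 n N (al N x) (sum_al hx)).2]
  have hlow := rw_low (LL n N) (fun x => bb N (al N x)) hc₀ (fun z => by
    obtain ⟨x, hx, hcx⟩ := hwl N hN z
    refine ⟨x, hx, ?_⟩
    rw [(h3 n N (al N x) (sum_al hx)).2]
    exact hcx) σ g hg
  have hlow2 := hlow.trans hint
  clear hlow hint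
  generalize (∑ x ∈ LL n N, MvPolynomial.C (e x) * bb N (al N x)) = Q at hQh hQn hlow2
  refine ⟨MvPolynomial.C (((1 / B : ℝ)) : ℂ) * Q, ⟨hQh.C_mul _, fun z => ?_⟩, ?_⟩
  · rw [rw_norm hB]
    calc 1 / B * ‖ev Q z‖ ≤ 1 / B * B := mul_le_mul_of_nonneg_left (hQn z) (by positivity)
      _ = 1 := by rw [one_div, inv_mul_cancel₀ hB.ne']
  · have hg0 : 0 ≤ ∫ z, g z ∂σ := integral_nonneg hg
    rw [rw_int hB]
    calc min 1 (c₀ ^ 2 / B ^ 2) * ∫ z, g z ∂σ ≤ c₀ ^ 2 / B ^ 2 * ∫ z, g z ∂σ :=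
          mul_le_mul_of_nonneg_right (min_le_right _ _) hg0
      _ = 1 / B ^ 2 * (c₀ ^ 2 * ∫ z, g z ∂σ) := by ring
      _ ≤ 1 / B ^ 2 * ∫ z, g z * ‖ev Q z‖ ^ 2 ∂σ :=
          mul_le_mul_of_nonneg_left hlow2 (by positivity)

end Pool.Agent.H81.PK
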