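import Pool.Agent.H3.PK.Targets

/-! WL of the board pk_modules: lower bound for the largest weight. -/

set_option autoImplicit false

open MeasureTheory Metric Set
open scoped ComplexConjugate

namespace Pool.Agent.H81.PK

open Pool.Agent.H3.PK

private theorem wl_fac {x a F : ℝ} (hx : 0 < x) (ha : 0 < a) (hF : (x - a) ^ 2 ≤ F * x) :
    Real.exp (1 / 2 * ((x - a) - F)) ≤ (x / a) ^ (a / 2) := by
  have hxa : 0 < x / a := by positivity
  rw [Real.rpow_def_of_pos hxa]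
  apply Real.exp_le_exp.2
  have h1 := Real.one_sub_inv_le_log_of_pos hxa
  rw [inv_div] at h1
  have h2 := mul_le_mul_of_nonneg_right h1 (by positivity : 0 ≤ a / 2)
  refine le_trans ?_ h2
  have h3 : (x - a) ^ 2 / x ≤ F := by rw [div_le_iff₀ hx]; exact hF
  have h4 : (1 - a / x) * (a / 2) = 1 / 2 * ((x - a) - (x - a) ^ 2 / x) := by
    field_simp
    ring
  rw [h4]
  linarith

private theorem wl_floor {x : ℝ} (hx : 0 ≤ x) : ((⌊√x⌋₊ : ℕ) : ℝ) ^ 2 ≤ x ∧
    x - ((⌊√x⌋₊ : ℕ) : ℝ) ^ 2 ≤ 2 * √x := by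
  have h1 : ((⌊√x⌋₊ : ℕ) : ℝ) ≤ √x := Nat.floor_le (Real.sqrt_nonneg x)
  have h2 : √x < ((⌊√x⌋₊ : ℕ) : ℝ) + 1 := Nat.lt_floor_add_one _
  have h0 : (0 : ℝ) ≤ ((⌊√x⌋₊ : ℕ) : ℝ) := Nat.cast_nonneg _
  have h3 : √x ^ 2 = x := Real.sq_sqrt hx
  constructor
  · calc ((⌊√x⌋₊ : ℕ) : ℝ) ^ 2 ≤ √x ^ 2 := pow_le_pow_left₀ h0 h1 2
      _ = x := h3
  · nlinarith

/-- the factor of an index with the exponent a square -/
private theorem wl_side {x : ℝ} (hx : 0 ≤ x) :
    Real.exp (1 / 2 * ((x - ((⌊√x⌋₊ ^ 2 : ℕ) : ℝ)) - 4)) ≤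
      (x / ((⌊√x⌋₊ ^ 2 : ℕ) : ℝ)) ^ (((⌊√x⌋₊ ^ 2 : ℕ) : ℝ) / 2) := by
  obtain ⟨h1, h2⟩ := wl_floor hx
  rcases Nat.eq_zero_or_pos ⌊√x⌋₊ with h0 | h0
  · rw [h0]
    have h3 : √x < 1 := by
      have := Nat.lt_floor_add_one (√x)
      rw [h0] at this
      simpa using this
    have h4 : x < 1 := by
      have h5 : √x ^ 2 = x := Real.sq_sqrt hx
      have h6 := Real.sqrt_nonneg x
      nlinarith
    simp only [ne_eq, OfNat.ofNat_ne_zero, not_false_eq_true, zero_pow, Nat.cast_zero, sub_zero,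
      zero_div, Real.rpow_zero]
    rw [Real.exp_le_one_iff]
    linarith
  · have h3 : (1 : ℝ) ≤ ((⌊√x⌋₊ : ℕ) : ℝ) := by exact_mod_cast h0
    have h4 : (0 : ℝ) < ((⌊√x⌋₊ ^ 2 : ℕ) : ℝ) := by
      push_cast
      positivity
    have h5 : 0 < x := by
      refine lt_of_lt_of_le ?_ h1
      positivity
    refine wl_fac h5 h4 ?_
    push_cast
    have h6 : 0 ≤ x - ((⌊√x⌋₊ : ℕ) : ℝ) ^ 2 := by linarith
    calc (x - ((⌊√x⌋₊ : ℕ) : ℝ) ^ 2) ^ 2 ≤ (2 * √x) ^ 2 := pow_le_pow_left₀ h6 h2 2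
      _ = 4 * x := by rw [mul_pow, Real.sq_sqrt hx]; norm_num

theorem wl : T_WL := by
  classical
  intro n hn
  refine ⟨Real.exp (-(2 * n + 2 * (n : ℝ) ^ 3)), Real.exp_pos _, ?_⟩
  intro N hN z
  have hn0 : (0 : ℝ) < n := by exact_mod_cast hn
  have hN0 : (0 : ℝ) < N := by exact_mod_cast hN
  set X : Fin n → ℝ := fun i => (N : ℝ) * ‖(z : E n) i‖ ^ 2 with hX
  have hX0 : ∀ i, 0 ≤ X i := fun i => by positivity
  have hXs : ∑ i, X i = N := by
    rw [hX, ← Finset.mul_sum, sum_norm_sq, mul_one]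
  have hXN : ∀ i, X i ≤ N := by
    intro i
    rw [← hXs]
    exact Finset.single_le_sum (fun l _ => hX0 l) (Finset.mem_univ i)
  -- the large coordinate
  obtain ⟨j, hj⟩ : ∃ j, (N : ℝ) / n ≤ X j := by
    by_contra hcon
    push Not at hcon
    have : Nonempty (Fin n) := ⟨⟨0, hn⟩⟩
    have h1 : ∑ i, X i < ∑ _i : Fin n, (N : ℝ) / n :=
      Finset.sum_lt_sum_of_nonempty Finset.univ_nonempty fun i _ => hcon i
    rw [hXs, Finset.sum_const, Finset.card_univ, Fintype.card_fin, nsmul_eq_mul,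
      mul_div_cancel₀ _ hn0.ne'] at h1
    exact lt_irrefl _ h1
  have hXj : 0 < X j := lt_of_lt_of_le (by positivity) hj
  set k : Fin n → ℕ := fun i => if i = j then 0 else ⌊√(X i)⌋₊ with hk
  have hkj : k j = 0 := by simp [hk]
  have hki : ∀ i, i ≠ j → k i = ⌊√(X i)⌋₊ := fun i hi => by simp [hk, hi]
  have hk2 : ∀ i, ((k i : ℕ) : ℝ) ^ 2 ≤ X i := by
    intro i
    by_cases hi : i = j
    · subst hi
      rw [hkj]
      simpa using hX0 i
    · rw [hki i hi]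
      exact (wl_floor (hX0 i)).1
  have hksum : ∑ i, k i ^ 2 ≤ N := by
    have h1 : ∑ i, ((k i : ℕ) : ℝ) ^ 2 ≤ N := by
      rw [← hXs]
      exact Finset.sum_le_sum fun i _ => hk2 i
    exact_mod_cast h1
  have hmem : (j, k) ∈ LL n N := by
    unfold LL
    rw [Finset.mem_filter, Finset.mem_product]
    refine ⟨⟨Finset.mem_univ _, ?_⟩, hkj, hksum⟩
    rw [Fintype.mem_piFinset]
    intro i
    rw [Finset.mem_range]
    have h1 : k i ^ 2 ≤ ∑ l, k l ^ 2 :=
      Finset.single_le_sum (f := fun l => k l ^ 2) (fun l _ => Nat.zero_le _) (Finset.mem_univ i)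
    have h2 : k i ≤ k i ^ 2 := Nat.le_self_pow two_ne_zero _
    show k i < N + 1
    omega
  refine ⟨(j, k), hmem, ?_⟩
  have hAs : ∑ i, ((al N (j, k) i : ℕ) : ℝ) = N := by
    have := sum_al hmem
    exact_mod_cast this
  have hAi : ∀ i, i ≠ j → al N (j, k) i = ⌊√(X i)⌋₊ ^ 2 := by
    intro i hi
    simp only [al, if_neg hi]
    rw [hki i hi]
  have hAj : ((al N (j, k) j : ℕ) : ℝ) = N - ∑ l, ((k l : ℕ) : ℝ) ^ 2 := by
    simp only [al, if_true]
    rw [Nat.cast_sub hksum]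
    push_cast
    rfl
  -- the difference at `j`
  have hdiff : ((al N (j, k) j : ℕ) : ℝ) - X j =
      ∑ l ∈ Finset.univ.erase j, (X l - ((k l : ℕ) : ℝ) ^ 2) := by
    have h1 : ((al N (j, k) j : ℕ) : ℝ) = ∑ l, (X l - ((k l : ℕ) : ℝ) ^ 2) := by
      rw [Finset.sum_sub_distrib, hXs, hAj]
    rw [h1, ← Finset.add_sum_erase _ _ (Finset.mem_univ j), hkj]
    simp
  have hd0 : 0 ≤ ((al N (j, k) j : ℕ) : ℝ) - X j := by
    rw [hdiff]
    exact Finset.sum_nonneg fun l _ => by linarith [hk2 l]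
  have hd1 : ((al N (j, k) j : ℕ) : ℝ) - X j ≤ n * (2 * √(N : ℝ)) := by
    rw [hdiff]
    calc ∑ l ∈ Finset.univ.erase j, (X l - ((k l : ℕ) : ℝ) ^ 2)
        ≤ ∑ _l ∈ Finset.univ.erase j, 2 * √(N : ℝ) := by
          refine Finset.sum_le_sum fun l hl => ?_
          rw [hki l (Finset.ne_of_mem_erase hl)]
          refine (wl_floor (hX0 l)).2.trans ?_
          have := Real.sqrt_le_sqrt (hXN l)
          linarith
      _ = ((Finset.univ.erase j).card : ℝ) * (2 * √(N : ℝ)) := by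
          rw [Finset.sum_const, nsmul_eq_mul]
      _ ≤ n * (2 * √(N : ℝ)) := by
          refine mul_le_mul_of_nonneg_right ?_ (by positivity)
          have h1 : (Finset.univ.erase j).card ≤ (Finset.univ : Finset (Fin n)).card :=
            Finset.card_le_card (Finset.erase_subset _ _)
          rw [Finset.card_univ, Fintype.card_fin] at h1
          exact_mod_cast h1
  set F : Fin n → ℝ := fun i => if i = j then 4 * (n : ℝ) ^ 3 else 4 with hF
  have hfac : ∀ i, Real.exp (1 / 2 * ((X i - ((al N (j, k) i : ℕ) : ℝ)) - F i)) ≤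
      (X i / ((al N (j, k) i : ℕ) : ℝ)) ^ (((al N (j, k) i : ℕ) : ℝ) / 2) := by
    intro i
    by_cases hi : i = j
    · subst hi
      have hFi : F i = 4 * (n : ℝ) ^ 3 := by simp [hF]
      rw [hFi]
      refine wl_fac hXj (by linarith) ?_
      have h1 : (X i - ((al N (i, k) i : ℕ) : ℝ)) ^ 2 ≤ (n * (2 * √(N : ℝ))) ^ 2 := by
        have h2 : (X i - ((al N (i, k) i : ℕ) : ℝ)) ^ 2 =
            (((al N (i, k) i : ℕ) : ℝ) - X i) ^ 2 := by ring
        rw [h2]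
        exact pow_le_pow_left₀ hd0 hd1 2
      refine h1.trans ?_
      rw [mul_pow, mul_pow, Real.sq_sqrt hN0.le]
      rw [div_le_iff₀ hn0] at hj
      have h3 : 4 * (n : ℝ) ^ 3 * X i = 4 * (n : ℝ) ^ 2 * (X i * n) := by ring
      rw [h3]
      have h4 : (n : ℝ) ^ 2 * (2 ^ 2 * N) = 4 * (n : ℝ) ^ 2 * N := by ring
      rw [h4]
      exact mul_le_mul_of_nonneg_left hj (by positivity)
    · have hFi : F i = 4 := by simp [hF, hi]
      rw [hFi, hAi i hi]
      exact wl_side (hX0 i)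
  have hprod : ∏ i, Real.exp (1 / 2 * ((X i - ((al N (j, k) i : ℕ) : ℝ)) - F i)) ≤
      wt N (al N (j, k)) z := by
    unfold wt
    exact Finset.prod_le_prod (fun i _ => (Real.exp_pos _).le) fun i _ => hfac i
  refine le_trans ?_ hprod
  rw [← Real.exp_sum]
  apply Real.exp_le_exp.2
  have hFs : ∑ i, F i ≤ 4 * n + 4 * (n : ℝ) ^ 3 := by
    rw [← Finset.add_sum_erase _ _ (Finset.mem_univ j)]
    have h1 : F j = 4 * (n : ℝ) ^ 3 := by simp [hF]
    have h2 : ∑ i ∈ Finset.univ.erase j, F i ≤ ∑ _i ∈ Finset.univ.erase j, (4 : ℝ) := by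
      refine Finset.sum_le_sum fun i hi => ?_
      simp [hF, Finset.ne_of_mem_erase hi]
    have h3 : ∑ _i ∈ Finset.univ.erase j, (4 : ℝ) ≤ 4 * n := by
      rw [Finset.sum_const, nsmul_eq_mul]
      have h1 : (Finset.univ.erase j).card ≤ (Finset.univ : Finset (Fin n)).card :=
        Finset.card_le_card (Finset.erase_subset _ _)
      rw [Finset.card_univ, Fintype.card_fin] at h1
      have h4 : ((Finset.univ.erase j).card : ℝ) ≤ n := by exact_mod_cast h1
      linarith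
    linarith
  rw [← Finset.mul_sum, Finset.sum_sub_distrib, Finset.sum_sub_distrib, hXs, hAs]
  linarith

end Pool.Agent.H81.PK
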